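import Pool.Agent.W57.SW.GroupSq
import Pool.Agent.W57.SW.Smooth

set_option autoImplicit false

/-! Composite numbers without a witness up to `2 (log n)^A`: the group bound. -/

namespace Pool.Agent.W57.SW

open Finset Real Pool.Agent.H379R2.W

/-- `n` is composite and passes the strong test for all bases `1 < b ≤ 2 (log n)^A` -/
def Bd (A : ℝ) (n : ℕ) : Prop :=
  2 ≤ n ∧ ¬ n.Prime ∧ ∀ b : ℕ, 1 < b → (b : ℝ) ≤ 2 * (log n) ^ A → Passes n b

lemma one_le_log {n : ℕ} (hn : 3 ≤ n) : 1 ≤ log (n : ℝ) := by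
  have h3 : (3 : ℝ) ≤ n := by exact_mod_cast hn
  rw [le_log_iff_exp_le (by linarith)]
  linarith [exp_one_lt_d9]

lemma sq_le_rpow {A : ℝ} (hA : 2 ≤ A) {n : ℕ} (hn : 3 ≤ n) :
    (log (n : ℝ)) ^ 2 ≤ (log (n : ℝ)) ^ A := by
  rw [← rpow_two]
  exact rpow_le_rpow_of_exponent_le (one_le_log hn) hA

lemma Bd.bad {A : ℝ} (hA : 2 ≤ A) {n : ℕ} (hn : 3 ≤ n) (h : Bd A n) : Bad n :=
  ⟨h.1, h.2.1, fun b h1 h2 => h.2.2 b h1 (by linarith [sq_le_rpow hA hn])⟩

lemma bd_prime_large {A : ℝ} {n q : ℕ} (h : Bd A n) (hq : q.Prime) (hqn : q ∣ n) :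
    2 * (log n) ^ A < q := by
  by_contra hle
  push Not at hle
  exact not_dvd_of_passes h.1 hq hqn (h.2.2 q hq.one_lt hle) dvd_rfl

/-- The group bound. -/
lemma group_boundA (A δ : ℝ) (hA : 2 ≤ A) (hδ : 0 < δ) : ∃ D0 : ℕ, ∀ n : ℕ, Bd A n →
    ∀ D : ℕ, D0 ≤ D → D ∣ n → (D : ℝ) ^ (1 - 1 / A - δ) ≤ (liars n D : ℝ) := by
  obtain ⟨D0, hD0⟩ := smooth_many A δ (by linarith) hδ
  refine ⟨max D0 3, fun n hn D hD hDn => ?_⟩
  have hD1 : 3 ≤ D := (le_max_right _ _).trans hD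
  have : NeZero D := ⟨by omega⟩
  obtain ⟨S, hS1, hS2⟩ := hD0 D ((le_max_left _ _).trans hD)
  refine hS2.trans ?_
  have hn0 : 0 < n := by have := hn.1; omega
  have hDle : D ≤ n := Nat.le_of_dvd hn0 hDn
  have hlog : log D ≤ log n :=
    log_le_log (by exact_mod_cast (by omega : 0 < D)) (by exact_mod_cast hDle)
  have hlog0 : 0 ≤ log (D : ℝ) := log_natCast_nonneg D
  have hy : (log (D : ℝ)) ^ A ≤ 2 * (log (n : ℝ)) ^ A := by
    have h1 := rpow_le_rpow hlog0 hlog (by linarith : 0 ≤ A)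
    have h2 : 0 ≤ (log (n : ℝ)) ^ A := rpow_nonneg (hlog0.trans hlog) _
    linarith
  have hmem : ∀ s ∈ S, (s : ZMod D) ^ (n - 1) = 1 := by
    intro s hs
    obtain ⟨h1, h2, _, _, h3⟩ := hS1 s hs
    refine pow_eq_one_of_primes s h1 fun p hp hps => ?_
    exact pow_of_passes_dvd (hn.2.2 p hp.one_lt ((h3 p hp hps).trans hy)) hDn
  have hcard : S.card ≤ liars n D := by
    unfold liars
    have hinj : Function.Injective (fun s : S => (⟨((s : ℕ) : ZMod D), hmem s s.2⟩ :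
        {z : ZMod D // z ^ (n - 1) = 1})) := by
      intro s s' hss
      have h1 : ((s : ℕ) : ZMod D) = ((s' : ℕ) : ZMod D) := congrArg Subtype.val hss
      rw [ZMod.natCast_eq_natCast_iff] at h1
      obtain ⟨a1, a2, _⟩ := hS1 s s.2
      obtain ⟨b1, b2, _⟩ := hS1 s' s'.2
      apply Subtype.ext
      have h2 : ((s : ℕ) - 1) ≡ ((s' : ℕ) - 1) [MOD D] := by
        have e1 : (s : ℕ) = ((s : ℕ) - 1) + 1 := by omega
        have e2 : (s' : ℕ) = ((s' : ℕ) - 1) + 1 := by omega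
        rw [e1, e2] at h1
        exact Nat.ModEq.add_right_cancel' 1 h1
      have h3 := Nat.ModEq.eq_of_lt_of_lt h2 (by omega) (by omega)
      omega
    have h1 := Nat.card_le_card_of_injective _ hinj
    rw [Nat.card_eq_fintype_card, Fintype.card_coe] at h1
    exact h1
  exact_mod_cast hcard

/-- for a prime divisor `q` of a bad `n = q * m` -/
lemma bd_gcd (A δ : ℝ) (hA : 2 ≤ A) (hδ : 0 < δ) : ∃ N : ℕ, 3 ≤ N ∧ ∀ n : ℕ, N ≤ n → Bd A n →
    ∀ q m : ℕ, q.Prime → n = q * m →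
    (q : ℝ) ^ (1 - 1 / A - δ) ≤ (Nat.gcd (q - 1) (m - 1) : ℝ) ∧ 2 ≤ m := by
  obtain ⟨D0, hD0⟩ := group_boundA A δ hA hδ
  have h1 : ∀ᶠ x : ℝ in Filter.atTop, (D0 : ℝ) ≤ log x :=
    tendsto_log_atTop.eventually (Filter.eventually_ge_atTop _)
  have h2 : ∀ᶠ x : ℝ in Filter.atTop, (1 : ℝ) ≤ log x :=
    tendsto_log_atTop.eventually (Filter.eventually_ge_atTop _)
  obtain ⟨Y, hY⟩ := Filter.eventually_atTop.mp (h1.and h2)
  refine ⟨max 3 ⌈Y⌉₊, le_max_left _ _, fun n hn hb q m hq hnm => ?_⟩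
  have hn3 : 3 ≤ n := (le_max_left _ _).trans hn
  obtain ⟨a1, a2⟩ := hY n (Nat.ceil_le.mp ((le_max_right _ _).trans hn))
  have hqn : q ∣ n := ⟨m, hnm⟩
  have hlarge := bd_prime_large hb hq hqn
  have hsq := sq_le_rpow hA hn3
  have hD : D0 ≤ q := by
    have e1 : (D0 : ℝ) ≤ q := by nlinarith
    exact_mod_cast e1
  have hm2 : 2 ≤ m := by
    by_contra h
    have : m = 0 ∨ m = 1 := by omega
    rcases this with h | h
    · rw [h, mul_zero] at hnm
      have := hb.1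
      omega
    · rw [h, mul_one] at hnm
      exact hb.2.1 (hnm ▸ hq)
  refine ⟨?_, hm2⟩
  have h3 := hD0 n hb q hD hqn
  have h4 := liars_prime hb.1 hq
  have h5 : Nat.gcd (q - 1) (n - 1) = Nat.gcd (q - 1) (m - 1) := by
    have e1 : n - 1 = (m - 1) + (q - 1) * m := by
      rw [hnm]
      obtain ⟨q', rfl⟩ : ∃ q', q = q' + 1 := ⟨q - 1, by have := hq.two_le; omega⟩
      obtain ⟨m', rfl⟩ : ∃ m', m = m' + 1 := ⟨m - 1, by omega⟩
      simp only [Nat.add_sub_cancel]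
      rw [show (q' + 1) * (m' + 1) = m' + q' * (m' + 1) + 1 by ring]
      omega
    rw [e1, Nat.gcd_add_mul_left_right]
  rw [h5] at h4
  have h6 : (liars n q : ℝ) ≤ Nat.gcd (q - 1) (m - 1) := by exact_mod_cast h4
  exact h3.trans h6

end Pool.Agent.W57.SW
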