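import Pool.Agent.Helper112.Arith
import Pool.Agent.W57.SW.Rank
import Pool.Agent.W57.SW.Group

set_option autoImplicit false

/-! Counting the composite numbers without a witness up to `2 (log n)^A`: exponent `1 / A`. -/

namespace Pool.Agent.W57.SW

open Finset Real Pool.Agent.H379R2.W

/-- sums over sparse sets -/
lemma rank_sum (A : Finset ℕ) (K α σ : ℝ) (hK : 0 < K) (hα : 0 < α) (hσ : α < σ)
    (hA0 : ∀ q ∈ A, 1 ≤ q)
    (hA : ∀ q ∈ A, ((A.filter (fun q' => q' ≤ q)).card : ℝ) ≤ K * (q : ℝ) ^ α) :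
    ∑ q ∈ A, (q : ℝ) ^ (-σ) ≤ K ^ (σ / α) * ∑' k : ℕ, (k : ℝ) ^ (-(σ / α)) := by
  have hβ : 1 < σ / α := by rw [lt_div_iff₀ hα]; linarith
  have hsum : Summable fun k : ℕ => (k : ℝ) ^ (-(σ / α)) :=
    Real.summable_nat_rpow.mpr (by linarith)
  obtain ⟨r, hr⟩ : ∃ r : ℕ → ℕ, ∀ q, r q = (A.filter (fun q' => q' ≤ q)).card := ⟨_, fun _ => rfl⟩
  have hr1 : ∀ q ∈ A, 1 ≤ r q := by
    intro q hq
    rw [hr]
    exact Finset.card_pos.mpr ⟨q, mem_filter.mpr ⟨hq, le_refl q⟩⟩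
  have hinj : Set.InjOn r A := by
    have hlt : ∀ q ∈ A, ∀ q' ∈ A, q < q' → r q < r q' := by
      intro q hq q' hq' hlt
      rw [hr, hr]
      apply card_lt_card
      rw [ssubset_iff_of_subset]
      · exact ⟨q', mem_filter.mpr ⟨hq', le_refl q'⟩, fun h => by
          have := (mem_filter.mp h).2; omega⟩
      · intro z hz
        rw [mem_filter] at hz ⊢
        exact ⟨hz.1, by omega⟩
    intro q hq q' hq' h
    rcases lt_trichotomy q q' with h1 | h1 | h1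
    · have := hlt q hq q' hq' h1; omega
    · exact h1
    · have := hlt q' hq' q hq h1; omega
  have h1 : ∀ q ∈ A, (q : ℝ) ^ (-σ) ≤ K ^ (σ / α) * (r q : ℝ) ^ (-(σ / α)) := by
    intro q hq
    have hq0 : (0 : ℝ) < q := by exact_mod_cast hA0 q hq
    have hr0 : (0 : ℝ) < r q := by exact_mod_cast hr1 q hq
    have h2 := hA q hq
    rw [← hr] at h2
    have h3 : (r q : ℝ) / K ≤ (q : ℝ) ^ α := by rw [div_le_iff₀ hK]; linarith
    have h4 : ((q : ℝ) ^ α) ^ (-(σ / α)) ≤ ((r q : ℝ) / K) ^ (-(σ / α)) :=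
      rpow_le_rpow_of_nonpos (by positivity) h3 (by linarith)
    rw [← rpow_mul hq0.le, div_rpow hr0.le hK.le] at h4
    have h5 : α * -(σ / α) = -σ := by field_simp
    rw [h5] at h4
    refine h4.trans (le_of_eq ?_)
    rw [rpow_neg hK.le]
    field_simp
  refine (sum_le_sum h1).trans ?_
  rw [← mul_sum]
  apply mul_le_mul_of_nonneg_left _ (by positivity)
  have h2 : ∑ q ∈ A, (r q : ℝ) ^ (-(σ / α)) = ∑ k ∈ A.image r, (k : ℝ) ^ (-(σ / α)) := by
    rw [sum_image fun a ha b hb h => hinj ha hb h]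
  rw [h2]
  exact hsum.sum_le_tsum _ fun k _ => by positivity


lemma symbol_ne {A : ℝ} {x p ℓ : ℕ} (hp : p.Prime) (hpx : (log x) ^ A < p)
    (hℓ : ℓ ∈ opr ⌊(log x) ^ A⌋₊) : jacobiSym (ℓ : ℤ) p = 1 ∨ jacobiSym (ℓ : ℤ) p = -1 := by
  rw [mem_opr] at hℓ
  have h1 : (ℓ : ℝ) ≤ (log x) ^ A := by
    have h2 : (ℓ : ℝ) ≤ (⌊(log (x : ℝ)) ^ A⌋₊ : ℝ) := by exact_mod_cast hℓ.2.1
    exact h2.trans (Nat.floor_le (rpow_nonneg (log_natCast_nonneg x) _))
  have h2 : (ℓ : ℝ) < p := by linarith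
  have h3 : ℓ < p := by exact_mod_cast h2
  have hco : Nat.Coprime ℓ p := (Nat.coprime_primes hℓ.1 hp).mpr h3.ne
  have : NeZero p := ⟨hp.ne_zero⟩
  rcases jacobiSym.trichotomy (ℓ : ℤ) p with h | h | h
  · exfalso
    rw [jacobiSym.eq_zero_iff_not_coprime, Int.gcd_natCast_natCast] at h
    exact h hco
  · exact Or.inl h
  · exact Or.inr h

/-- structure of a bad squarefree number -/
lemma bd_struct {A : ℝ} {x n : ℕ} (hb : Bd A n) (hnx : n ≤ x)
    (hlog : (log x) ^ A ≤ 2 * (log n) ^ A) (hlog2 : 2 ≤ (log x) ^ A) (hsq : Squarefree n) :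
    n ∈ Dq A x ∨ ∃ p m : ℕ, p.Prime ∧ n = p * m ∧ m ∈ Dq A x := by
  have hn2 := hb.1
  have hpf : ∀ q ∈ n.primeFactors, q.Prime ∧ q ∣ n ∧ (log x) ^ A < q ∧ q ≠ 2 ∧ q ≤ x := by
    intro q hq
    rw [Nat.mem_primeFactors] at hq
    have h1 := bd_prime_large hb hq.1 hq.2.1
    have h2 : (log x) ^ A < q := by linarith
    refine ⟨hq.1, hq.2.1, h2, ?_, (Nat.le_of_dvd (by omega) hq.2.1).trans hnx⟩
    intro h
    rw [h] at h2
    norm_num at h2
    linarith
  have hpass : ∀ ℓ ∈ opr ⌊(log x) ^ A⌋₊, Passes n ℓ := by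
    intro ℓ hℓ
    rw [mem_opr] at hℓ
    apply hb.2.2 ℓ hℓ.1.one_lt
    have h1 : (ℓ : ℝ) ≤ (⌊(log (x : ℝ)) ^ A⌋₊ : ℝ) := by exact_mod_cast hℓ.2.1
    have h2 := Nat.floor_le (rpow_nonneg (log_natCast_nonneg x) A)
    linarith
  have hne : n.primeFactors.Nonempty := Nat.nonempty_primeFactors.mpr (by omega)
  obtain ⟨p, hp, hpmin⟩ := exists_min_image n.primeFactors v2 hne
  obtain ⟨hpp, hpn, hplog, hp2, hpx⟩ := hpf p hp
  obtain ⟨m, hm⟩ := hpn
  have hm0 : m ≠ 0 := by intro h; rw [h, mul_zero] at hm; omega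
  have hmn : m ∣ n := ⟨p, by rw [hm, mul_comm]⟩
  have hmsq : Squarefree m := hsq.squarefree_of_dvd hmn
  have hnodd : Odd n := by
    rw [← Nat.not_even_iff_odd, even_iff_two_dvd]
    intro h
    exact (hpf 2 (Nat.mem_primeFactors.mpr ⟨Nat.prime_two, h, by omega⟩)).2.2.2.1 rfl
  have hmodd : Odd m := Odd.of_dvd_nat hnodd hmn
  obtain ⟨s, hs⟩ : ∃ s, s = (m.primeFactors.filter (fun q => v2 q = v2 p)).card := ⟨_, rfl⟩
  have hJm : ∀ ℓ ∈ opr ⌊(log x) ^ A⌋₊, jacobiSym (ℓ : ℤ) m = jacobiSym (ℓ : ℤ) p ^ s := by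
    intro ℓ hℓ
    have e1 : ∏ q ∈ m.primeFactors, q = m := Nat.prod_primeFactors_of_squarefree hmsq
    conv_lhs => rw [← e1]
    rw [jacobi_prod _ _ (fun q hq => (Nat.prime_of_mem_primeFactors hq).ne_zero)]
    have e2 : ∀ q ∈ m.primeFactors, jacobiSym (ℓ : ℤ) q =
        if v2 q = v2 p then jacobiSym (ℓ : ℤ) p else 1 := by
      intro q hq
      rw [Nat.mem_primeFactors] at hq
      have hqn : q ∈ n.primeFactors :=
        Nat.mem_primeFactors.mpr ⟨hq.1, hq.2.1.trans hmn, by omega⟩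
      obtain ⟨a1, a2, a3, a4, a5⟩ := hpf q hqn
      have hmin := hpmin q hqn
      split_ifs with h
      · exact same_symbol (hpass ℓ hℓ) a1 hpp a4 hp2 a2 ⟨m, hm⟩ h
      · exact symbol_one (hpass ℓ hℓ) a1 hpp a4 hp2 a2 ⟨m, hm⟩ (by omega)
    rw [prod_congr rfl e2, ← prod_filter, prod_const, hs]
  rcases Nat.even_or_odd s with hev | hod
  · right
    refine ⟨p, m, hpp, hm, ?_⟩
    rw [mem_Dq]
    refine ⟨⟨by omega, (Nat.le_of_dvd (by omega) hmn).trans hnx⟩, hmodd, hmsq, fun ℓ hℓ => ?_⟩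
    rw [hJm ℓ hℓ]
    rcases symbol_ne hpp hplog hℓ with e | e
    · rw [e]; simp
    · rw [e]; exact hev.neg_one_pow
  · left
    rw [mem_Dq]
    refine ⟨⟨by omega, hnx⟩, hnodd, hsq, fun ℓ hℓ => ?_⟩
    have : NeZero p := ⟨hpp.ne_zero⟩
    have : NeZero m := ⟨hm0⟩
    rw [hm, jacobiSym.mul_right, hJm ℓ hℓ]
    rcases symbol_ne hpp hplog hℓ with e | e
    · rw [e]; simp
    · rw [e, hod.neg_one_pow]; norm_num

/-- the numbers `p = e t + 1` with `e ≥ p^(1-β)` have `t ≤ p^β` -/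
lemma t_small {p e t : ℕ} {β : ℝ} (hp : 2 ≤ p) (hpt : e * t + 1 = p)
    (he : (p : ℝ) ^ (1 - β) ≤ e) : (t : ℝ) ≤ (p : ℝ) ^ β := by
  have hp0 : (0 : ℝ) < p := by exact_mod_cast (by omega : 0 < p)
  have h1 : (e : ℝ) * t ≤ p := by
    have : e * t ≤ p := by omega
    exact_mod_cast this
  have h2 : (p : ℝ) ^ (1 - β) * t ≤ p := (mul_le_mul_of_nonneg_right he (Nat.cast_nonneg t)).trans h1
  have h3 : (p : ℝ) = (p : ℝ) ^ (1 - β) * (p : ℝ) ^ β := by
    rw [← rpow_add hp0]; simp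
  have h4 : 0 < (p : ℝ) ^ (1 - β) := by positivity
  have h5 : (p : ℝ) ^ (1 - β) * t ≤ (p : ℝ) ^ (1 - β) * (p : ℝ) ^ β := by rw [← h3]; exact h2
  exact le_of_mul_le_mul_left h5 h4

/-- the main covering of the set of bad numbers -/
lemma bd_cover {A β : ℝ} {x n N : ℕ} (hβ : 0 ≤ β) (hN1 : ∀ n : ℕ, N ≤ n → Bd A n → Squarefree n)
    (hN2 : ∀ n : ℕ, N ≤ n → Bd A n → ∀ q m : ℕ, q.Prime → n = q * m →
      (q : ℝ) ^ (1 - β) ≤ (Nat.gcd (q - 1) (m - 1) : ℝ) ∧ 2 ≤ m)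
    (hb : Bd A n) (hNn : N ≤ n) (hnx : n ≤ x) (hlog : (log x) ^ A ≤ 2 * (log n) ^ A)
    (hlog2 : 2 ≤ (log x) ^ A) :
    n ∈ Dq A x ∨
    (∃ m ∈ Dq A x, 2 ≤ m ∧ ∃ e ∈ (m - 1).divisors, ∃ t ∈ range (⌊((x : ℝ) / m) ^ β⌋₊ + 1),
      (e * t + 1) * m = n) := by
  rcases bd_struct hb hnx hlog hlog2 (hN1 n hNn hb) with h | h
  · exact Or.inl h
  · right
    obtain ⟨p, m, hp, hnm, hm⟩ := h
    obtain ⟨g1, g2⟩ := hN2 n hNn hb p m hp hnm
    obtain ⟨e, he⟩ : ∃ e, e = Nat.gcd (p - 1) (m - 1) := ⟨_, rfl⟩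
    rw [← he] at g1
    have he1 : e ∣ p - 1 := by rw [he]; exact Nat.gcd_dvd_left _ _
    have he2 : e ∣ m - 1 := by rw [he]; exact Nat.gcd_dvd_right _ _
    obtain ⟨t, ht⟩ := he1
    have hp1 : e * t + 1 = p := by rw [← ht]; exact Nat.sub_add_cancel hp.one_lt.le
    refine ⟨m, hm, g2, e, Nat.mem_divisors.mpr ⟨he2, by omega⟩, t, ?_, ?_⟩
    · rw [mem_range, Nat.lt_succ_iff]
      apply Nat.le_floor
      refine (t_small hp.two_le hp1 g1).trans ?_
      apply rpow_le_rpow (Nat.cast_nonneg p) _ hβ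
      have hm0 : (0 : ℝ) < m := by exact_mod_cast (by omega : 0 < m)
      rw [le_div_iff₀ hm0]
      have : p * m ≤ x := by rw [← hnm]; exact hnx
      exact_mod_cast this
    · rw [hp1]; exact hnm.symm

/-- the exponent of the lower cut -/
noncomputable def th (A : ℝ) : ℝ := (1 / 2 : ℝ) ^ (1 / A)

lemma th_pos (A : ℝ) : 0 < th A := by unfold th; positivity

lemma th_lt_one {A : ℝ} (hA : 0 < A) : th A < 1 := by
  unfold th
  exact rpow_lt_one (by norm_num) (by norm_num) (by positivity)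

lemma th_rpow {A : ℝ} (hA : 0 < A) : (th A) ^ A = 1 / 2 := by
  unfold th
  rw [← rpow_mul (by norm_num)]
  rw [one_div_mul_cancel hA.ne', rpow_one]

open Classical in
lemma bd_count_top (A ε : ℝ) (hA : 2 ≤ A) (hε : 0 < ε) : ∃ K : ℝ, 0 < K ∧ ∀ x : ℕ, 1 ≤ x →
    (((Icc 1 x).filter (fun n => Bd A n ∧ (x : ℝ) ^ (th A) < n)).card : ℝ) ≤
      K * (x : ℝ) ^ (1 / A + ε) := by
  have hA0 : 0 < A := by linarith
  obtain ⟨δ, hδ0, hδ1⟩ : ∃ δ : ℝ, 0 < δ ∧ 3 * δ ≤ ε := ⟨ε / 3, by positivity, by linarith⟩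
  obtain ⟨K, hK, hrank⟩ := Dq_rank A δ (by linarith) hδ0
  obtain ⟨C, hC, hdiv⟩ := Helper112.divisor_bound δ hδ0
  obtain ⟨α, hα⟩ : ∃ α : ℝ, α = 1 / A + δ := ⟨_, rfl⟩
  obtain ⟨σ, hσ⟩ : ∃ σ : ℝ, σ = 1 / A + 2 * δ := ⟨_, rfl⟩
  rw [← hα] at hrank
  have hA1 : 0 < 1 / A := by positivity
  have hα0 : 0 < α := by rw [hα]; positivity
  have hασ : α < σ := by rw [hα, hσ]; linarith
  have hσ0 : 0 < σ := by linarith
  obtain ⟨R, hR⟩ : ∃ R : ℝ, R = K ^ (σ / α) * ∑' k : ℕ, (k : ℝ) ^ (-(σ / α)) := ⟨_, rfl⟩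
  have hR0 : 0 ≤ R := by rw [hR]; positivity
  obtain ⟨N1, hN1⟩ := bad_squarefree
  obtain ⟨N2, hN23, hN2⟩ := bd_gcd A δ hA hδ0
  have hth := th_pos A
  have hev1 : ∀ᶠ x : ℝ in Filter.atTop, ((max N1 N2 : ℕ) : ℝ) ≤ x ^ (th A) :=
    (tendsto_rpow_atTop hth).eventually (Filter.eventually_ge_atTop _)
  have hev2 : ∀ᶠ x : ℝ in Filter.atTop, 2 ≤ log x :=
    tendsto_log_atTop.eventually (Filter.eventually_ge_atTop _)
  obtain ⟨x0, hx0⟩ := Filter.eventually_atTop.mp (hev1.and hev2)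
  obtain ⟨X0, hX0⟩ := exists_nat_ge x0
  refine ⟨(X0 : ℝ) + K + 2 * C * R, by positivity, ?_⟩
  intro x hx
  have hx1 : (1 : ℝ) ≤ x := by exact_mod_cast hx
  have hxpos : (0 : ℝ) < x := by linarith
  have hX0' : (0 : ℝ) ≤ X0 := Nat.cast_nonneg X0
  have hpow1 : (1 : ℝ) ≤ (x : ℝ) ^ (1 / A + ε) := one_le_rpow hx1 (by positivity)
  rcases lt_or_ge x X0 with hsmall | hlarge
  · have h1 : ((Icc 1 x).filter (fun n => Bd A n ∧ (x : ℝ) ^ (th A) < n)).card ≤ x := by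
      refine (card_filter_le _ _).trans ?_
      rw [Nat.card_Icc]; omega
    have h2 : (((Icc 1 x).filter (fun n => Bd A n ∧ (x : ℝ) ^ (th A) < n)).card : ℝ) ≤ X0 := by
      exact_mod_cast h1.trans hsmall.le
    calc (((Icc 1 x).filter (fun n => Bd A n ∧ (x : ℝ) ^ (th A) < n)).card : ℝ)
        ≤ (X0 + K + 2 * C * R) * 1 := by
          have : 0 ≤ 2 * C * R := by positivity
          linarith
      _ ≤ _ := mul_le_mul_of_nonneg_left hpow1 (by positivity)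
  · obtain ⟨c1, c2⟩ := hx0 x (hX0.trans (by exact_mod_cast hlarge))
    have hL4 : 2 ≤ (log (x : ℝ)) ^ A := by
      have h1 : (log (x : ℝ)) ^ (1 : ℝ) ≤ (log (x : ℝ)) ^ A :=
        rpow_le_rpow_of_exponent_le (by linarith) (by linarith)
      rw [rpow_one] at h1
      linarith
    have hcover : (Icc 1 x).filter (fun n => Bd A n ∧ (x : ℝ) ^ (th A) < n) ⊆ Dq A x ∪
        (((Dq A x).filter (fun m => 2 ≤ m)).biUnion (fun m => (m - 1).divisors.biUnion
          (fun e => (range (⌊((x : ℝ) / m) ^ σ⌋₊ + 1)).image (fun t => (e * t + 1) * m)))) := by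
      intro n hn
      rw [mem_filter, mem_Icc] at hn
      obtain ⟨⟨hn1, hnx⟩, hb, hnr⟩ := hn
      have hNn : max N1 N2 ≤ n := by
        have : ((max N1 N2 : ℕ) : ℝ) ≤ n := c1.trans hnr.le
        exact_mod_cast this
      have hn3 : 3 ≤ n := hN23.trans ((le_max_right _ _).trans hNn)
      have hlogn : th A * log x ≤ log n := by
        have := log_le_log (by positivity) hnr.le
        rwa [log_rpow hxpos] at this
      have hlog : (log (x : ℝ)) ^ A ≤ 2 * (log n) ^ A := by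
        have h1 := rpow_le_rpow (by positivity : 0 ≤ th A * log (x : ℝ)) hlogn hA0.le
        rw [mul_rpow hth.le (by linarith), th_rpow hA0] at h1
        linarith
      rw [mem_union]
      have hN2' : ∀ n : ℕ, max N1 N2 ≤ n → Bd A n → ∀ q m : ℕ, q.Prime → n = q * m →
          (q : ℝ) ^ (1 - σ) ≤ (Nat.gcd (q - 1) (m - 1) : ℝ) ∧ 2 ≤ m := by
        intro n h hb q m hq hnm
        obtain ⟨g1, g2⟩ := hN2 n ((le_max_right _ _).trans h) hb q m hq hnm
        refine ⟨le_trans ?_ g1, g2⟩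
        apply rpow_le_rpow_of_exponent_le (by exact_mod_cast hq.one_lt.le)
        rw [hσ]; linarith
      have hN1' : ∀ n : ℕ, max N1 N2 ≤ n → Bd A n → Squarefree n := by
        intro n h hb
        have h3 : 3 ≤ n := hN23.trans ((le_max_right _ _).trans h)
        exact hN1 n ((le_max_left _ _).trans h) (hb.bad hA h3)
      rcases bd_cover hσ0.le hN1' hN2' hb hNn hnx hlog hL4 with h | h
      · exact Or.inl h
      · right
        obtain ⟨m, hm, hm2, e, he, t, ht, hnm⟩ := h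
        rw [mem_biUnion]
        refine ⟨m, mem_filter.mpr ⟨hm, hm2⟩, ?_⟩
        rw [mem_biUnion]
        exact ⟨e, he, mem_image.mpr ⟨t, ht, hnm⟩⟩
    have hcard := card_le_card hcover
    -- first part
    have hA : ((Dq A x).card : ℝ) ≤ K * (x : ℝ) ^ α := by
      have h1 := hrank x x hx le_rfl
      have h2 : (Dq A x).filter (fun m => m ≤ x) = Dq A x := by
        apply filter_true_of_mem
        intro m hm
        exact (mem_Dq.mp hm).1.2
      rwa [h2] at h1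
    -- second part
    have hsum : ∑ m ∈ Dq A x, (m : ℝ) ^ (-σ) ≤ R := by
      rw [hR]
      apply rank_sum (Dq A x) K α σ hK hα0 hασ
      · intro q hq; exact (mem_Dq.mp hq).1.1
      · intro q hq
        exact hrank x q (mem_Dq.mp hq).1.1 (mem_Dq.mp hq).1.2
    have hB : (((((Dq A x).filter (fun m => 2 ≤ m)).biUnion (fun m => (m - 1).divisors.biUnion
          (fun e => (range (⌊((x : ℝ) / m) ^ σ⌋₊ + 1)).image
            (fun t => (e * t + 1) * m))))).card : ℝ) ≤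
        2 * C * (x : ℝ) ^ (σ + δ) * R := by
      have e1 : (((((Dq A x).filter (fun m => 2 ≤ m)).biUnion (fun m => (m - 1).divisors.biUnion
          (fun e => (range (⌊((x : ℝ) / m) ^ σ⌋₊ + 1)).image
            (fun t => (e * t + 1) * m))))).card : ℝ) ≤
          ∑ m ∈ (Dq A x).filter (fun m => 2 ≤ m),
            (((m - 1).divisors.card * (⌊((x : ℝ) / m) ^ σ⌋₊ + 1) : ℕ) : ℝ) := by
        have h1 := card_biUnion_le (s := (Dq A x).filter (fun m => 2 ≤ m))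
          (t := fun m => (m - 1).divisors.biUnion
          (fun e => (range (⌊((x : ℝ) / m) ^ σ⌋₊ + 1)).image (fun t => (e * t + 1) * m)))
        have h2 : ∑ m ∈ (Dq A x).filter (fun m => 2 ≤ m), ((m - 1).divisors.biUnion
            (fun e => (range (⌊((x : ℝ) / m) ^ σ⌋₊ + 1)).image (fun t => (e * t + 1) * m))).card ≤
            ∑ m ∈ (Dq A x).filter (fun m => 2 ≤ m),
              (m - 1).divisors.card * (⌊((x : ℝ) / m) ^ σ⌋₊ + 1) := by
          apply sum_le_sum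
          intro m _
          refine card_biUnion_le.trans ?_
          rw [← smul_eq_mul, ← sum_const]
          exact sum_le_sum fun e _ => card_image_le.trans (le_of_eq (card_range _))
        exact_mod_cast h1.trans h2
      refine e1.trans ?_
      have e2 : ∀ m ∈ (Dq A x).filter (fun m => 2 ≤ m),
          (((m - 1).divisors.card * (⌊((x : ℝ) / m) ^ σ⌋₊ + 1) : ℕ) : ℝ) ≤
          2 * C * (x : ℝ) ^ (σ + δ) * (m : ℝ) ^ (-σ) := by
        intro m hm
        rw [mem_filter, mem_Dq] at hm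
        obtain ⟨⟨⟨m1, m2⟩, _, _⟩, hm2⟩ := hm
        have hm0 : (0 : ℝ) < m := by exact_mod_cast m1
        have hmx : (m : ℝ) ≤ x := by exact_mod_cast m2
        have hxm : 1 ≤ (x : ℝ) / m := by rw [one_le_div hm0]; exact hmx
        have d1 : ((m - 1).divisors.card : ℝ) ≤ C * (x : ℝ) ^ δ := by
          refine (hdiv (m - 1) (by omega)).trans ?_
          apply mul_le_mul_of_nonneg_left _ hC.le
          apply rpow_le_rpow (Nat.cast_nonneg _) _ hδ0.le
          have : m - 1 ≤ x := by omega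
          exact_mod_cast this
        have d2 : ((⌊((x : ℝ) / m) ^ σ⌋₊ + 1 : ℕ) : ℝ) ≤ 2 * ((x : ℝ) / m) ^ σ := by
          have f1 : ((⌊((x : ℝ) / m) ^ σ⌋₊ : ℕ) : ℝ) ≤ ((x : ℝ) / m) ^ σ :=
            Nat.floor_le (by positivity)
          have f4 : 1 ≤ ((x : ℝ) / m) ^ σ := one_le_rpow hxm hσ0.le
          push_cast
          linarith
        push_cast at d2 ⊢
        calc ((m - 1).divisors.card : ℝ) * ((⌊((x : ℝ) / m) ^ σ⌋₊ : ℝ) + 1) ≤
            (C * (x : ℝ) ^ δ) * (2 * ((x : ℝ) / m) ^ σ) :=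
              mul_le_mul d1 d2 (by positivity) (by positivity)
          _ = 2 * C * (x : ℝ) ^ (σ + δ) * (m : ℝ) ^ (-σ) := by
              rw [div_rpow hxpos.le hm0.le, rpow_add hxpos, rpow_neg hm0.le]
              ring
      refine (sum_le_sum e2).trans ?_
      rw [← mul_sum]
      apply mul_le_mul_of_nonneg_left _ (by positivity)
      refine le_trans ?_ hsum
      apply sum_le_sum_of_subset_of_nonneg (filter_subset _ _)
      intro m _ _; positivity
    have h1 : (((Icc 1 x).filter (fun n => Bd A n ∧ (x : ℝ) ^ (th A) < n)).card : ℝ) ≤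
        K * (x : ℝ) ^ α + 2 * C * (x : ℝ) ^ (σ + δ) * R := by
      have h2 := hcard.trans (card_union_le _ _)
      have h3 : (((Icc 1 x).filter (fun n => Bd A n ∧ (x : ℝ) ^ (th A) < n)).card : ℝ) ≤
        ((Dq A x).card : ℝ) + ((((Dq A x).filter (fun m => 2 ≤ m)).biUnion (fun m =>
          (m - 1).divisors.biUnion
          (fun e => (range (⌊((x : ℝ) / m) ^ σ⌋₊ + 1)).image
            (fun t => (e * t + 1) * m)))).card : ℝ) := by exact_mod_cast h2
      linarith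
    have h2 : (x : ℝ) ^ α ≤ (x : ℝ) ^ (1 / A + ε) :=
      rpow_le_rpow_of_exponent_le hx1 (by rw [hα]; linarith)
    have h3 : (x : ℝ) ^ (σ + δ) ≤ (x : ℝ) ^ (1 / A + ε) :=
      rpow_le_rpow_of_exponent_le hx1 (by rw [hσ]; linarith)
    have h4 : K * (x : ℝ) ^ α ≤ K * (x : ℝ) ^ (1 / A + ε) := mul_le_mul_of_nonneg_left h2 hK.le
    have h5 : 2 * C * R * (x : ℝ) ^ (σ + δ) ≤ 2 * C * R * (x : ℝ) ^ (1 / A + ε) :=
      mul_le_mul_of_nonneg_left h3 (by positivity)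
    have h6 : 0 ≤ (X0 : ℝ) * (x : ℝ) ^ (1 / A + ε) := by positivity
    linarith

open Classical in
/-- The main counting theorem. -/
theorem bd_count (A ε : ℝ) (hA : 2 ≤ A) (hε : 0 < ε) : ∃ K : ℝ, 0 < K ∧ ∀ x : ℕ, 1 ≤ x →
    (((Icc 1 x).filter (Bd A)).card : ℝ) ≤ K * (x : ℝ) ^ (1 / A + ε) := by
  have hA0 : 0 < A := by linarith
  obtain ⟨K, hK, hKx⟩ := bd_count_top A ε hA hε
  have hth := th_pos A
  have hth1 := th_lt_one hA0
  obtain ⟨α, hα⟩ : ∃ α : ℝ, α = 1 / A + ε := ⟨_, rfl⟩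
  have hα0 : 0 < α := by rw [hα]; positivity
  rw [← hα] at hKx ⊢
  have hev1 : ∀ᶠ x : ℝ in Filter.atTop, 2 ≤ x ^ (α * (1 - th A)) :=
    (tendsto_rpow_atTop (mul_pos hα0 (by linarith))).eventually (Filter.eventually_ge_atTop _)
  obtain ⟨x0, hx0⟩ := Filter.eventually_atTop.mp hev1
  obtain ⟨X0, hX0⟩ := exists_nat_ge x0
  refine ⟨2 * K + X0, by positivity, ?_⟩
  intro x
  induction x using Nat.strong_induction_on with
  | _ x ih =>
  intro hx
  have hx1 : (1 : ℝ) ≤ x := by exact_mod_cast hx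
  have hxpos : (0 : ℝ) < x := by linarith
  have hX0' : (0 : ℝ) ≤ X0 := Nat.cast_nonneg X0
  have hpow1 : (1 : ℝ) ≤ (x : ℝ) ^ α := one_le_rpow hx1 hα0.le
  rcases lt_or_ge x (max X0 2) with hsmall | hlarge
  · rcases lt_or_ge x X0 with hs | hs
    · have h1 : ((Icc 1 x).filter (Bd A)).card ≤ x := by
        refine (card_filter_le _ _).trans ?_
        rw [Nat.card_Icc]; omega
      have h2 : (((Icc 1 x).filter (Bd A)).card : ℝ) ≤ X0 := by
        exact_mod_cast h1.trans hs.le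
      calc (((Icc 1 x).filter (Bd A)).card : ℝ) ≤ (2 * K + X0) * 1 := by linarith
        _ ≤ _ := mul_le_mul_of_nonneg_left hpow1 (by positivity)
    · have hx2 : x = 1 := by
        rw [lt_max_iff] at hsmall
        omega
      have h1 : (Icc 1 x).filter (Bd A) = ∅ := by
        rw [filter_eq_empty_iff]
        intro n hn hb
        rw [mem_Icc] at hn
        have := hb.1
        omega
      rw [h1]
      simp only [card_empty, Nat.cast_zero]
      positivity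
  · have hxX : X0 ≤ x := (le_max_left _ _).trans hlarge
    have hx2 : 2 ≤ x := (le_max_right _ _).trans hlarge
    have hc := hx0 x (hX0.trans (by exact_mod_cast hxX))
    obtain ⟨y, hy⟩ : ∃ y : ℕ, y = ⌊(x : ℝ) ^ (th A)⌋₊ := ⟨_, rfl⟩
    have hyle : (y : ℝ) ≤ (x : ℝ) ^ (th A) := by rw [hy]; exact Nat.floor_le (by positivity)
    have hxlt : (x : ℝ) ^ (th A) < x := by
      have hx1' : (1 : ℝ) < x := by exact_mod_cast hx2
      calc (x : ℝ) ^ (th A) < (x : ℝ) ^ (1 : ℝ) := rpow_lt_rpow_of_exponent_lt hx1' hth1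
        _ = x := rpow_one _
    have hyx : y < x := by
      have : (y : ℝ) < x := by linarith
      exact_mod_cast this
    have hy1 : 1 ≤ y := by
      rw [hy]
      apply Nat.le_floor
      rw [Nat.cast_one]
      exact one_le_rpow hx1 hth.le
    have hcov : (Icc 1 x).filter (Bd A) ⊆
        (Icc 1 x).filter (fun n => Bd A n ∧ (x : ℝ) ^ (th A) < n) ∪ (Icc 1 y).filter (Bd A) := by
      intro n hn
      rw [mem_filter, mem_Icc] at hn
      obtain ⟨⟨hn1, hnx⟩, hb⟩ := hn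
      rw [mem_union, mem_filter, mem_filter, mem_Icc, mem_Icc]
      rcases lt_or_ge ((x : ℝ) ^ (th A)) n with h | h
      · exact Or.inl ⟨⟨hn1, hnx⟩, hb, h⟩
      · right
        exact ⟨⟨hn1, by rw [hy]; exact Nat.le_floor h⟩, hb⟩
    have h1 := (card_le_card hcov).trans (card_union_le _ _)
    have h2 : (((Icc 1 x).filter (Bd A)).card : ℝ) ≤
        (((Icc 1 x).filter (fun n => Bd A n ∧ (x : ℝ) ^ (th A) < n)).card : ℝ) +
        (((Icc 1 y).filter (Bd A)).card : ℝ) := by exact_mod_cast h1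
    have h3 := hKx x hx
    have h4 := ih y hyx hy1
    have h5 : (y : ℝ) ^ α ≤ (x : ℝ) ^ α / 2 := by
      have h6 : (y : ℝ) ^ α ≤ (x : ℝ) ^ (th A * α) := by
        rw [rpow_mul hxpos.le]
        exact rpow_le_rpow (Nat.cast_nonneg y) hyle hα0.le
      have h7 : (x : ℝ) ^ (th A * α) * (x : ℝ) ^ (α * (1 - th A)) = (x : ℝ) ^ α := by
        rw [← rpow_add hxpos]; congr 1; ring
      have h8 : 0 < (x : ℝ) ^ (th A * α) := by positivity
      rw [le_div_iff₀ (by norm_num)]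
      calc (y : ℝ) ^ α * 2 ≤ (x : ℝ) ^ (th A * α) * 2 := by linarith
        _ ≤ (x : ℝ) ^ (th A * α) * (x : ℝ) ^ (α * (1 - th A)) :=
            mul_le_mul_of_nonneg_left hc h8.le
        _ = _ := h7
    have h6 : (2 * K + X0) * (y : ℝ) ^ α ≤ (2 * K + X0) * ((x : ℝ) ^ α / 2) :=
      mul_le_mul_of_nonneg_left h5 (by positivity)
    have h7 : 0 ≤ (X0 : ℝ) * (x : ℝ) ^ α := by positivity
    linarith

end Pool.Agent.W57.SW
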