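import Mathlib

set_option autoImplicit false

/-! Many smooth numbers (adapted from `Pool.Agent.H379R2.W.Smooth`). -/

namespace Pool.Agent.W57.SW

open Finset Real

lemma fact_upper {n : ℕ} (hn : 1 ≤ n) : log (n.factorial) ≤ n * log n - n + log n + 1 := by
  induction n, hn using Nat.le_induction with
  | base => simp
  | succ n hn ih =>
    rw [Nat.factorial_succ]
    push_cast
    rw [log_mul (by positivity) (by positivity)]
    have hn0 : (0:ℝ) < n := by exact_mod_cast hn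
    have h1 : 1 / ((n:ℝ) + 1) ≤ log (n + 1) - log n := by
      rw [← log_div (by positivity) hn0.ne']
      have := one_sub_inv_le_log_of_pos (x := ((n:ℝ)+1)/n) (by positivity)
      refine le_trans (le_of_eq ?_) this
      field_simp
      ring
    have h2 : 1 ≤ ((n:ℝ)+1) * (log (n+1) - log n) := by
      rw [div_le_iff₀ (by positivity)] at h1; linarith
    nlinarith

/-- primes up to `y` -/
def pr (y : ℕ) : Finset ℕ := (range (y + 1)).filter Nat.Prime

lemma mem_pr {y p : ℕ} : p ∈ pr y ↔ p.Prime ∧ p ≤ y := by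
  rw [pr, mem_filter, mem_range, Nat.lt_succ_iff, and_comm]

lemma card_pr (y : ℕ) : (pr y).card = Nat.primeCounting y := by
  rw [pr, Nat.primeCounting, Nat.primeCounting', Nat.count_eq_card_filter_range]

/-- products of `u` distinct elements of `A` -/
def prods (A : Finset ℕ) (u : ℕ) : Finset ℕ := (powersetCard u A).image (fun T => ∏ x ∈ T, x)

lemma card_prods {A : Finset ℕ} (hA : ∀ p ∈ A, p.Prime) (u : ℕ) :
    (prods A u).card = A.card.choose u := by
  rw [prods, card_image_of_injOn, card_powersetCard]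
  intro T hT T' hT' h
  rw [mem_coe, mem_powersetCard] at hT hT'
  have h1 := Nat.primeFactors_prod (s := T) fun p hp => hA p (hT.1 hp)
  have h2 := Nat.primeFactors_prod (s := T') fun p hp => hA p (hT'.1 hp)
  simp only at h
  rw [← h1, ← h2, h]

lemma prods_spec {A : Finset ℕ} (hA : ∀ p ∈ A, p.Prime) {y u : ℕ} (hy : ∀ p ∈ A, p ≤ y) {s : ℕ}
    (hs : s ∈ prods A u) : 1 ≤ s ∧ s ≤ y ^ u ∧ s.primeFactors ⊆ A ∧ Squarefree s ∧
      s.primeFactors.card = u := by
  rw [prods, mem_image] at hs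
  obtain ⟨T, hT, rfl⟩ := hs
  rw [mem_powersetCard] at hT
  have hp := fun p hp => hA p (hT.1 hp)
  have h1 := Nat.primeFactors_prod (s := T) hp
  refine ⟨Finset.prod_pos fun p hp' => (hp p hp').pos, ?_, ?_, ?_, ?_⟩
  · rw [← hT.2]
    exact prod_le_pow_card _ _ _ fun p hp' => hy p (hT.1 hp')
  · rw [h1]; exact hT.1
  · rw [Nat.squarefree_iff_prime_squarefree]
    intro p hpp hdiv
    have hpd : p ∣ ∏ x ∈ T, x := (dvd_mul_right p p).trans hdiv
    have hmem : p ∈ T := by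
      rw [← h1, Nat.mem_primeFactors]
      exact ⟨hpp, hpd, (Finset.prod_pos fun p hp' => (hp p hp').pos).ne'⟩
    rw [← mul_prod_erase T (fun x => x) hmem] at hdiv
    have h2 : p ∣ ∏ x ∈ T.erase p, x := Nat.dvd_of_mul_dvd_mul_left hpp.pos hdiv
    have h3 := Nat.primeFactors_prod (s := T.erase p) fun q hq => hp q (mem_of_mem_erase hq)
    have h4 : p ∈ T.erase p := by
      rw [← h3, Nat.mem_primeFactors]
      exact ⟨hpp, h2, (Finset.prod_pos fun q hq => (hp q (mem_of_mem_erase hq)).pos).ne'⟩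
    exact absurd h4 (notMem_erase p T)
  · rw [h1]; exact hT.2

lemma primeCounting_low {y : ℕ} :
    (y : ℝ) * log 2 - log (y + 1) ≤ Nat.primeCounting y * log y :=
  (Chebyshev.psi_ge y).trans (Chebyshev.psi_le_primeCounting_mul_log y)

lemma log_choose {N u : ℕ} (hu : 1 ≤ u) (huN : u ≤ N) :
    u * log ((N : ℝ) + 1 - u) - (u * log u - u + log u + 1) ≤ log (N.choose u) := by
  have h1 := Nat.pow_le_choose u N (α := ℝ)
  have h2 : ((N + 1 - u : ℕ) : ℝ) = N + 1 - u := by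
    rw [Nat.cast_sub (by omega)]; push_cast; ring
  rw [h2] at h1
  have hpos : (0 : ℝ) < (N : ℝ) + 1 - u := by
    have : (u : ℝ) ≤ N := by exact_mod_cast huN
    linarith
  have hf : (0 : ℝ) < (u.factorial : ℝ) := by positivity
  have h3 := log_le_log (by positivity) h1
  rw [log_div (by positivity) hf.ne', log_pow] at h3
  have h4 := fact_upper hu
  linarith

/-- the main count: more than `√D` numbers `≤ D` have all prime factors `≤ 2 (log D)^2` -/
lemma smooth_count : ∃ D0 : ℕ, ∀ D : ℕ, D0 ≤ D → ∃ S : Finset ℕ,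
    (∀ s ∈ S, 1 ≤ s ∧ s ≤ D ∧ ∀ p : ℕ, p.Prime → p ∣ s → (p : ℝ) ≤ 2 * (log D) ^ 2) ∧
      (D : ℝ) < (S.card : ℝ) ^ 2 := by
  -- eventual conditions in `t = log D`
  have hev1 : ∀ᶠ t : ℝ in Filter.atTop, 160 ≤ t := Filter.eventually_ge_atTop _
  have hev2 : ∀ᶠ t : ℝ in Filter.atTop, (1 + 2 * log t) ^ 2 + 4 * (1 + 2 * log t) < t := by
    have h1 : ∀ᶠ t : ℝ in Filter.atTop, ‖log t ^ 2‖ ≤ 1 / 24 * ‖id t‖ :=
      (isLittleO_pow_log_id_atTop (n := 2)).def (by norm_num)
    have h2 : ∀ᶠ t : ℝ in Filter.atTop, 1 ≤ log t :=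
      tendsto_log_atTop.eventually (Filter.eventually_ge_atTop 1)
    filter_upwards [h1, h2, Filter.eventually_gt_atTop 0] with t a1 a2 a3
    rw [norm_of_nonneg (by positivity), id, norm_of_nonneg a3.le] at a1
    nlinarith
  obtain ⟨t0, ht0⟩ := Filter.eventually_atTop.mp (hev1.and hev2)
  refine ⟨⌈exp t0⌉₊, fun D hD => ?_⟩
  have hD1 : exp t0 ≤ D := Nat.ceil_le.mp hD
  have hD0 : (0 : ℝ) < D := (exp_pos _).trans_le hD1
  obtain ⟨t, ht⟩ : ∃ t : ℝ, t = log D := ⟨_, rfl⟩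
  have htt0 : t0 ≤ t := by rw [ht, le_log_iff_exp_le hD0]; exact hD1
  obtain ⟨h160, h2⟩ := ht0 t htt0
  have htpos : 0 < t := by linarith
  obtain ⟨y, hy⟩ : ∃ y : ℕ, y = ⌊2 * t ^ 2⌋₊ := ⟨_, rfl⟩
  have hyle : (y : ℝ) ≤ 2 * t ^ 2 := by rw [hy]; exact Nat.floor_le (by positivity)
  have hylt : 2 * t ^ 2 < y + 1 := by rw [hy]; exact Nat.lt_floor_add_one _
  have hy100 : (100 : ℝ) ≤ y := by nlinarith
  have hy2 : 2 ≤ y := by
    have : (2 : ℝ) ≤ y := by linarith
    exact_mod_cast this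
  have hy0 : (0 : ℝ) < y := by linarith
  obtain ⟨Y, hY⟩ : ∃ Y : ℝ, Y = log y := ⟨_, rfl⟩
  have hY1 : 1 ≤ Y := by
    rw [hY, le_log_iff_exp_le hy0]; linarith [exp_one_lt_d9]
  have hYle : Y ≤ 1 + 2 * log t := by
    have h3 := log_le_log hy0 hyle
    rw [log_mul (by norm_num) (by positivity), log_pow] at h3
    push_cast at h3
    rw [hY]
    linarith [log_two_lt_d9]
  obtain ⟨u, hu⟩ : ∃ u : ℕ, u = Nat.log y D := ⟨_, rfl⟩
  have hDne : D ≠ 0 := by
    intro h; rw [h] at hD0; simp at hD0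
  have huD : y ^ u ≤ D := by rw [hu]; exact Nat.pow_log_le_self y hDne
  have huD' : D < y ^ (u + 1) := by rw [hu]; exact Nat.lt_pow_succ_log_self (by omega) D
  have hut : u * Y ≤ t := by
    have h3 : ((y ^ u : ℕ) : ℝ) ≤ D := by exact_mod_cast huD
    push_cast at h3
    have h4 := log_le_log (by positivity) h3
    rw [log_pow] at h4
    rw [hY, ht]; exact h4
  have hut' : t < (u + 1) * Y := by
    have h3 : (D : ℝ) < ((y ^ (u + 1) : ℕ) : ℝ) := by exact_mod_cast huD'
    push_cast at h3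
    have h4 := log_lt_log hD0 h3
    rw [log_pow] at h4
    push_cast at h4
    rw [hY, ht]; exact h4
  have hYt : (Y ^ 2 + 4 * Y) < t := by
    have : Y ^ 2 + 4 * Y ≤ (1 + 2 * log t) ^ 2 + 4 * (1 + 2 * log t) := by
      have := pow_le_pow_left₀ (by linarith) hYle 2
      linarith
    linarith
  have hu3 : (3 : ℝ) ≤ u := by
    by_contra h
    push Not at h
    have : (u + 1) * Y ≤ 4 * Y := by nlinarith
    nlinarith
  have hu1 : 1 ≤ u := by
    have : (1 : ℝ) ≤ u := by linarith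
    exact_mod_cast this
  have hu0 : (0 : ℝ) < u := by linarith
  -- number of primes
  obtain ⟨N, hN⟩ : ∃ N : ℕ, N = Nat.primeCounting y := ⟨_, rfl⟩
  have hNlow : (y : ℝ) * log 2 - log (y + 1) ≤ N * Y := by
    rw [hN, hY]; exact primeCounting_low
  have hlogy1 : log ((y : ℝ) + 1) ≤ 4 * t := by
    have h3 : (y : ℝ) + 1 ≤ (1 + 2 * t) ^ 2 := by nlinarith
    have h4 := log_le_log (by positivity) h3
    rw [log_pow] at h4
    have h5 := log_le_sub_one_of_pos (by positivity : 0 < 1 + 2 * t)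
    push_cast at h4
    linarith
  have hNY : 1.346 * t ^ 2 ≤ (N + 1 - u) * Y := by
    have h3 : 0.693 * (2 * t ^ 2 - 1) ≤ y * log 2 := by
      have h4 : (0.693 : ℝ) ≤ log 2 := by linarith [log_two_gt_d9]
      have h5 : 2 * t ^ 2 - 1 ≤ y := by linarith
      have h6 : (0 : ℝ) ≤ 2 * t ^ 2 - 1 := by nlinarith
      calc 0.693 * (2 * t ^ 2 - 1) ≤ 0.693 * y := mul_le_mul_of_nonneg_left h5 (by norm_num)
        _ ≤ log 2 * y := mul_le_mul_of_nonneg_right h4 hy0.le
        _ = y * log 2 := mul_comm _ _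
    nlinarith
  have hsq : √(y : ℝ) * t ≤ 1.41422 * t ^ 2 := by
    have h3 : √(y : ℝ) ≤ 1.41422 * t := by
      rw [sqrt_le_iff]
      constructor
      · positivity
      · nlinarith
    calc √(y : ℝ) * t ≤ 1.41422 * t * t := mul_le_mul_of_nonneg_right h3 htpos.le
      _ = _ := by ring
  have hsqpos : 0 < √(y : ℝ) := sqrt_pos.mpr hy0
  have hratio : 0.951 * √(y : ℝ) * u ≤ N + 1 - u := by
    have h3 : 0.951 * √(y : ℝ) * u * Y ≤ (N + 1 - u) * Y := by
      have h4 : 0.951 * √(y : ℝ) * (u * Y) ≤ 0.951 * √(y : ℝ) * t :=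
        mul_le_mul_of_nonneg_left hut (by positivity)
      have h5 : 0.951 * (√(y : ℝ) * t) ≤ 0.951 * (1.41422 * t ^ 2) :=
        mul_le_mul_of_nonneg_left hsq (by norm_num)
      have h6 : 0.951 * (1.41422 * t ^ 2) ≤ 1.346 * t ^ 2 := by nlinarith [sq_nonneg t]
      linarith
    exact le_of_mul_le_mul_right h3 (by linarith)
  have hNu : u ≤ N := by
    have h3 : (0 : ℝ) < 0.951 * √(y : ℝ) * u := by positivity
    have h4 : (u : ℝ) < ((N + 1 : ℕ) : ℝ) := by push_cast; linarith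
    have h5 : u < N + 1 := by exact_mod_cast h4
    omega
  have hlc := log_choose hu1 hNu
  have hlogr : log 0.951 + Y / 2 + log u ≤ log ((N : ℝ) + 1 - u) := by
    have h3 := log_le_log (by positivity) hratio
    rw [log_mul (by positivity) hu0.ne', log_mul (by norm_num) hsqpos.ne', log_sqrt hy0.le,
      ← hY] at h3
    linarith
  have hlog951 : -0.06 ≤ log (0.951 : ℝ) := by
    have h3 := one_sub_inv_le_log_of_pos (by norm_num : (0 : ℝ) < 0.951)
    norm_num at h3 ⊢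
    linarith
  have hlogu : log u ≤ 0.4 * u := by
    have h3 := add_one_le_exp ((u : ℝ) / exp 1 - 1)
    have h4 : (u : ℝ) / exp 1 ≤ exp (u / exp 1 - 1) := by linarith
    have h5 : (u : ℝ) ≤ exp (u / exp 1) := by
      rw [exp_sub, div_le_div_iff_of_pos_right (exp_pos 1)] at h4
      exact h4
    have h6 : log u ≤ u / exp 1 := by
      rw [log_le_iff_le_exp hu0]; exact h5
    have h7 : (u : ℝ) / exp 1 ≤ 0.4 * u := by
      rw [div_le_iff₀ (exp_pos 1)]
      nlinarith [exp_one_gt_d9]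
    linarith
  have hfin : t < 2 * log (N.choose u) := by
    have h3 : u * (Y / 2 - 0.06 + log u) ≤ u * log ((N : ℝ) + 1 - u) :=
      mul_le_mul_of_nonneg_left (by linarith) hu0.le
    have h7 : Y < u - 3 := by
      have h8 : Y * Y < (u - 3) * Y := by linarith [sq Y]
      exact lt_of_mul_lt_mul_right h8 (by linarith)
    linarith
  refine ⟨prods (pr y) u, ?_, ?_⟩
  · intro s hs
    obtain ⟨h3, h4, h5, _, _⟩ := prods_spec (fun p hp => (mem_pr.mp hp).1)
      (fun p hp => (mem_pr.mp hp).2) hs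
    refine ⟨h3, h4.trans huD, fun p hp hps => ?_⟩
    have h6 : p ∈ pr y := h5 (Nat.mem_primeFactors.mpr ⟨hp, hps, by omega⟩)
    have h7 : (p : ℝ) ≤ y := by exact_mod_cast (mem_pr.mp h6).2
    rw [← ht]; linarith
  · rw [card_prods (fun p hp => (mem_pr.mp hp).1), card_pr, ← hN]
    have hc : (0 : ℝ) < (N.choose u : ℝ) := by exact_mod_cast Nat.choose_pos hNu
    rw [← exp_log hD0, ← ht, ← exp_log (by positivity : (0 : ℝ) < (N.choose u : ℝ) ^ 2), log_pow]
    apply exp_lt_exp.mpr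
    push_cast
    exact hfin


lemma jacobi_prod (a : ℤ) (T : Finset ℕ) (hT : ∀ x ∈ T, x ≠ 0) :
    jacobiSym a (∏ x ∈ T, x) = ∏ x ∈ T, jacobiSym a x := by
  induction T using Finset.induction_on with
  | empty => simp
  | insert x T hx ih =>
    rw [prod_insert hx, prod_insert hx]
    have : NeZero x := ⟨hT x (mem_insert_self x T)⟩
    have h2 : ∀ z ∈ T, z ≠ 0 := fun z hz => hT z (mem_insert_of_mem hz)
    have : NeZero (∏ x ∈ T, x) := ⟨prod_ne_zero_iff.mpr h2⟩
    rw [jacobiSym.mul_right, ih h2]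

/-- odd primes up to `y` -/
def opr (y : ℕ) : Finset ℕ := (pr y).erase 2

lemma mem_opr {y p : ℕ} : p ∈ opr y ↔ p.Prime ∧ p ≤ y ∧ p ≠ 2 := by
  rw [opr, mem_erase, mem_pr]; tauto

lemma card_opr {y : ℕ} (hy : 2 ≤ y) : ((opr y).card : ℝ) = Nat.primeCounting y - 1 := by
  have h2 : 2 ∈ pr y := mem_pr.mpr ⟨Nat.prime_two, hy⟩
  rw [opr, card_erase_of_mem h2, card_pr, Nat.cast_sub, Nat.cast_one]
  rw [← card_pr]
  exact Finset.card_pos.mpr ⟨2, h2⟩

end Pool.Agent.W57.SW
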