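import Pool.Agent.H379R2.W.Strong
import Pool.Agent.W57.SW.Base

set_option autoImplicit false

/-! The group of `(n-1)`-st roots of unity modulo divisors of `n`
(adapted from `Pool.Agent.H379R2.W.Group`). -/

namespace Pool.Agent.W57.SW

open Finset Real Pool.Agent.H379R2.W

/-- `n` is composite and passes the strong test for all bases `1 < b ≤ 2 (log n)^2` -/
def Bad (n : ℕ) : Prop :=
  2 ≤ n ∧ ¬ n.Prime ∧ ∀ b : ℕ, 1 < b → (b : ℝ) ≤ 2 * (log n) ^ 2 → Passes n b

lemma bad_prime_large {n q : ℕ} (h : Bad n) (hq : q.Prime) (hqn : q ∣ n) :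
    2 * (log n) ^ 2 < q := by
  by_contra hle
  push Not at hle
  exact not_dvd_of_passes h.1 hq hqn (h.2.2 q hq.one_lt hle) dvd_rfl

lemma pow_eq_one_of_primes {D k : ℕ} : ∀ s : ℕ, 1 ≤ s →
    (∀ p : ℕ, p.Prime → p ∣ s → (p : ZMod D) ^ k = 1) → (s : ZMod D) ^ k = 1 := by
  intro s
  induction s using Nat.strong_induction_on with
  | _ s ih =>
    intro hs hp
    rcases eq_or_lt_of_le hs with h | h
    · rw [← h]; simp
    · have hmp := Nat.minFac_prime (show s ≠ 1 by omega)
      obtain ⟨r, hr⟩ := Nat.minFac_dvd s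
      have hr0 : 1 ≤ r := by
        rcases Nat.eq_zero_or_pos r with h0 | h0
        · rw [h0, mul_zero] at hr; omega
        · exact h0
      have hlt : r < s := by
        rw [hr]; exact lt_mul_of_one_lt_left hr0 hmp.one_lt
      have h1 := ih r hlt hr0 fun p hpp hpr => hp p hpp (hpr.trans ⟨s.minFac, by rw [mul_comm]; exact hr⟩)
      have h2 := hp _ hmp (Nat.minFac_dvd s)
      rw [hr]
      push_cast
      rw [mul_pow, h1, mul_one]
      exact h2

/-- number of solutions of `z^(n-1) = 1` modulo `D` -/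
noncomputable def liars (n D : ℕ) : ℕ := Nat.card {z : ZMod D // z ^ (n - 1) = 1}

/-- The main group bound. -/
lemma group_bound : ∃ D0 : ℕ, ∀ n : ℕ, Bad n → ∀ D : ℕ, D0 ≤ D → D ∣ n →
    (D : ℝ) < (liars n D : ℝ) ^ 2 := by
  obtain ⟨D0, hD0⟩ := smooth_count
  refine ⟨max D0 1, fun n hn D hD hDn => ?_⟩
  have hD1 : 1 ≤ D := (le_max_right _ _).trans hD
  have : NeZero D := ⟨by omega⟩
  obtain ⟨S, hS1, hS2⟩ := hD0 D ((le_max_left _ _).trans hD)
  refine hS2.trans_le ?_
  have hn0 : 0 < n := by have := hn.1; omega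
  have hDle : D ≤ n := Nat.le_of_dvd hn0 hDn
  have hlog : log D ≤ log n := log_le_log (by exact_mod_cast hD1) (by exact_mod_cast hDle)
  have hlog0 : 0 ≤ log (D : ℝ) := log_natCast_nonneg D
  have hy : 2 * (log D) ^ 2 ≤ 2 * (log n) ^ 2 := by
    have := pow_le_pow_left₀ hlog0 hlog 2
    linarith
  have hmem : ∀ s ∈ S, (s : ZMod D) ^ (n - 1) = 1 := by
    intro s hs
    obtain ⟨h1, h2, h3⟩ := hS1 s hs
    refine pow_eq_one_of_primes s h1 fun p hp hps => ?_
    exact pow_of_passes_dvd (hn.2.2 p hp.one_lt ((h3 p hp hps).trans hy)) hDn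
  have hcard : S.card ≤ liars n D := by
    unfold liars
    have hinj : Function.Injective (fun s : S => (⟨((s : ℕ) : ZMod D), hmem s s.2⟩ :
        {z : ZMod D // z ^ (n - 1) = 1})) := by
      intro s s' hss
      have h1 : ((s : ℕ) : ZMod D) = ((s' : ℕ) : ZMod D) := congrArg Subtype.val hss
      rw [ZMod.natCast_eq_natCast_iff] at h1
      obtain ⟨a1, a2, _⟩ := hS1 s s.2
      obtain ⟨b1, b2, _⟩ := hS1 s' s'.2
      apply Subtype.ext
      have h2 : ((s : ℕ) - 1) ≡ ((s' : ℕ) - 1) [MOD D] := by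
        have e1 : (s : ℕ) = ((s : ℕ) - 1) + 1 := by omega
        have e2 : (s' : ℕ) = ((s' : ℕ) - 1) + 1 := by omega
        rw [e1, e2] at h1
        exact Nat.ModEq.add_right_cancel' 1 h1
      have h3 := Nat.ModEq.eq_of_lt_of_lt h2 (by omega) (by omega)
      omega
    have h1 := Nat.card_le_card_of_injective _ hinj
    rw [Nat.card_eq_fintype_card, Fintype.card_coe] at h1
    exact h1
  have : (S.card : ℝ) ≤ liars n D := by exact_mod_cast hcard
  exact pow_le_pow_left₀ (by positivity) this 2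

lemma liars_prime {n q : ℕ} (hn2 : 2 ≤ n) (hq : q.Prime) : liars n q ≤ Nat.gcd (q - 1) (n - 1) := by
  have := Fact.mk hq
  obtain ⟨e, he⟩ : ∃ e, e = Nat.gcd (q - 1) (n - 1) := ⟨_, rfl⟩
  have he0 : 0 < e := by
    rw [he]; exact Nat.gcd_pos_of_pos_left _ (by have := hq.two_le; omega)
  rw [← he]
  have hn : n - 1 ≠ 0 := by omega
  unfold liars
  have h1 : ∀ z : ZMod q, z ^ (n - 1) = 1 → z ∈ (Polynomial.nthRoots e (1 : ZMod q)).toFinset := by
    intro z hz
    have hz0 : z ≠ 0 := by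
      intro h0
      rw [h0, zero_pow hn] at hz
      exact zero_ne_one hz
    rw [Multiset.mem_toFinset, Polynomial.mem_nthRoots he0, he]
    exact pow_gcd_eq_one.mpr ⟨ZMod.pow_card_sub_one_eq_one hz0, hz⟩
  have h2 : Nat.card {z : ZMod q // z ^ (n - 1) = 1} ≤
      Nat.card (Polynomial.nthRoots e (1 : ZMod q)).toFinset := by
    apply Nat.card_le_card_of_injective (fun z => ⟨z.1, h1 z.1 z.2⟩)
    intro a b hab
    apply Subtype.ext
    exact congrArg (fun w => w.1) hab
  refine h2.trans ?_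
  rw [Nat.card_eq_fintype_card, Fintype.card_coe]
  exact (Multiset.toFinset_card_le _).trans (Polynomial.card_nthRoots e 1)

lemma liars_sq {n p : ℕ} (hn2 : 2 ≤ n) (hp : p.Prime) (hpn : p ∣ n) :
    liars n (p ^ 2) ≤ p - 1 := by
  have := Fact.mk hp
  have hn : n - 1 ≠ 0 := by omega
  have hp0 : 0 < p := hp.pos
  have hdvd : p ∣ p ^ 2 := dvd_pow_self p two_ne_zero
  have hne : NeZero (p ^ 2) := ⟨by positivity⟩
  have hco : Nat.Coprime p (n - 1) := by
    rw [hp.coprime_iff_not_dvd]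
    intro h
    have h1 : p ∣ 1 := by
      have h2 := Nat.dvd_sub hpn h
      rwa [show n - (n - 1) = 1 by omega] at h2
    exact hp.one_lt.ne' (Nat.dvd_one.mp h1)
  -- every solution satisfies `z^(p-1) = 1`
  have hz1 : ∀ z : ZMod (p ^ 2), z ^ (n - 1) = 1 → z ^ (p - 1) = 1 := by
    intro z hz
    have hu : IsUnit z := IsUnit.of_pow_eq_one hz hn
    obtain ⟨w, rfl⟩ := hu
    have h1 : w ^ (p * (p - 1)) = 1 := by
      have h2 := ZMod.pow_totient w
      rwa [Nat.totient_prime_pow hp (by norm_num : 0 < 2), show 2 - 1 = 1 by norm_num, pow_one] at h2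
    have h2 : w ^ (n - 1) = 1 := by
      apply Units.ext
      push_cast
      exact hz
    have h3 := pow_gcd_eq_one.mpr ⟨h1, h2⟩
    rw [Nat.Coprime.gcd_mul_left_cancel _ hco] at h3
    have h4 : Nat.gcd (p - 1) (n - 1) ∣ p - 1 := Nat.gcd_dvd_left _ _
    obtain ⟨c, hc⟩ := h4
    have h5 : w ^ (p - 1) = 1 := by rw [hc, pow_mul, h3, one_pow]
    have h6 := congrArg Units.val h5
    push_cast at h6
    exact h6
  -- reduction modulo `p` is injective on the solutions
  have hinj : Function.Injective (fun z : {z : ZMod (p ^ 2) // z ^ (n - 1) = 1} =>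
      (ZMod.castHom hdvd (ZMod p) z.1)) := by
    intro z w hzw
    apply Subtype.ext
    have h1 := hz1 z.1 z.2
    have h2 := hz1 w.1 w.2
    have h3 : (p : ZMod (p ^ 2)) ∣ z.1 - w.1 := by
      have h4 : ZMod.castHom hdvd (ZMod p) (z.1 - w.1) = 0 := by
        rw [map_sub, sub_eq_zero]; exact hzw
      obtain ⟨a, ha⟩ := ZMod.natCast_zmod_surjective (z.1 - w.1)
      rw [← ha] at h4 ⊢
      rw [map_natCast, ZMod.natCast_eq_zero_iff] at h4
      obtain ⟨c, hc⟩ := h4
      rw [hc]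
      push_cast
      exact dvd_mul_right _ _
    have h5 := dvd_sub_pow_of_dvd_sub h3 1
    rw [pow_one] at h5
    have h6 : ((p : ZMod (p ^ 2)) ^ (1 + 1)) = 0 := by
      have := ZMod.natCast_self (p ^ 2)
      push_cast at this
      exact this
    rw [h6, zero_dvd_iff, sub_eq_zero] at h5
    have h7 : ∀ v : ZMod (p ^ 2), v ^ (p - 1) = 1 → v ^ p = v := by
      intro v hv
      calc v ^ p = v ^ ((p - 1) + 1) := by congr 1; omega
        _ = v ^ (p - 1) * v := pow_succ _ _
        _ = v := by rw [hv, one_mul]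
    rw [h7 _ h1, h7 _ h2] at h5
    exact h5
  have hinj2 : Function.Injective (fun z : {z : ZMod (p ^ 2) // z ^ (n - 1) = 1} =>
      (⟨ZMod.castHom hdvd (ZMod p) z.1, by
        intro h0
        have h1 := congrArg (ZMod.castHom hdvd (ZMod p)) z.2
        rw [map_pow, h0, zero_pow hn, map_one] at h1
        exact zero_ne_one h1⟩ : {v : ZMod p // v ≠ 0})) := by
    intro z w hzw
    exact hinj (congrArg Subtype.val hzw)
  have h1 := Nat.card_le_card_of_injective _ hinj2
  unfold liars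
  refine h1.trans (le_of_eq ?_)
  rw [Nat.card_eq_fintype_card, Fintype.card_subtype_compl, ZMod.card]
  simp

/-- `n` is not squarefree: it has a small witness -/
lemma bad_squarefree : ∃ N : ℕ, ∀ n : ℕ, N ≤ n → Bad n → Squarefree n := by
  obtain ⟨D0, hD0⟩ := group_bound
  have h1 : ∀ᶠ x : ℝ in Filter.atTop, (D0 : ℝ) ≤ log x :=
    tendsto_log_atTop.eventually (Filter.eventually_ge_atTop _)
  have h2 : ∀ᶠ x : ℝ in Filter.atTop, (1 : ℝ) ≤ log x :=
    tendsto_log_atTop.eventually (Filter.eventually_ge_atTop _)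
  obtain ⟨Y, hY⟩ := Filter.eventually_atTop.mp (h1.and h2)
  refine ⟨⌈Y⌉₊, fun n hn hb => ?_⟩
  obtain ⟨a1, a2⟩ := hY n (Nat.ceil_le.mp hn)
  rw [Nat.squarefree_iff_prime_squarefree]
  intro p hp hpn
  have hpn' : p ^ 2 ∣ n := by rw [sq]; exact hpn
  have hlarge := bad_prime_large hb hp ((dvd_mul_right p p).trans hpn)
  have hD : D0 ≤ p ^ 2 := by
    have e1 : (D0 : ℝ) ≤ p := by nlinarith
    have e2 : D0 ≤ p := by exact_mod_cast e1
    have e3 : p ≤ p ^ 2 := by rw [sq]; exact Nat.le_mul_of_pos_left p hp.pos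
    omega
  have h3 := hD0 n hb (p ^ 2) hD hpn'
  have h4 := liars_sq hb.1 hp ((dvd_mul_right p p).trans hpn)
  have h5 : (liars n (p ^ 2) : ℝ) ≤ p := by
    have : liars n (p ^ 2) ≤ p := by omega
    exact_mod_cast this
  have h6 := pow_le_pow_left₀ (by positivity : (0 : ℝ) ≤ liars n (p ^ 2)) h5 2
  push_cast at h3
  linarith


end Pool.Agent.W57.SW
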